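import Pool.Agent.H26.SL.EtfT
import Pool.Agent.H61.ETF.Assemble

/-!
# Complex ETFs of `2M` vectors in `ℂ^M` for `M = 2^k n`, `n ≡ 1 (mod 4)`

Let `n` be a prime power with `n ≡ 1 (mod 4)`, or one less than the order of a symmetric
conference matrix, or a product `p q` where each of `p`, `q` is a prime power `≡ 3 (mod 4)` or one
less than the order (at least `4`) of a skew-symmetric conference matrix. Then for every `k ≥ 0`
there is a complex equiangular tight frame of `2M` vectors in `ℂ^M`, where `M = 2^k n`.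
-/

namespace Pool.Agent.Results.MP_0c7934_co.ConferencePairs

open Pool.Agent.H26.SL.Etf Pool.Agent.H54.Etf Pool.Agent.H61.ETF

/-- `p ≥ 3` is a prime power `≡ 3 (mod 4)`, or there is a skew-symmetric conference matrix of order
`p + 1` -/
def SkewOrder (p : ℕ) : Prop :=
  3 ≤ p ∧ ((IsPrimePow p ∧ p % 4 = 3) ∨
    ∃ W : Fin (p + 1) → Fin (p + 1) → ℤ, IsConference (-1) W)

lemma SkewOrder.ord {p : ℕ} (h : SkewOrder p) : SkewOrd p := by
  rcases h.2 with ⟨h1, h2⟩ | ⟨W, hW⟩
  · exact (Pool.Agent.H37.Etf.exists_core_of_primePow h1).2 h2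
  · have hC := (isConference_iff (-1) (by omega) W).1 hW
    exact ⟨Fin p, inferInstance, inferInstance, _, Fintype.card_fin p,
      Pool.Agent.H37.Etf.core_of_conference (by norm_num) hC⟩

theorem result (n k : ℕ)
    (h : (IsPrimePow n ∧ n % 4 = 1) ∨
      (1 ≤ n ∧ ∃ W : Fin (n + 1) → Fin (n + 1) → ℤ, IsConference 1 W) ∨
      ∃ p q : ℕ, SkewOrder p ∧ SkewOrder q ∧ n = p * q) :
    ∃ f : Fin (2 * (2 ^ k * n)) → Fin (2 ^ k * n) → ℂ, IsETF f := by
  have key : 1 ≤ n ∧ Ex (2 * n) := by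
    rcases h with ⟨h1, h2⟩ | ⟨h1, W, hW⟩ | ⟨p, q, hp, hq, rfl⟩
    · exact ⟨by omega, ex_primePow h1 (Nat.odd_iff.2 (by omega))⟩
    · have hC := (isConference_iff 1 (by omega) W).1 hW
      obtain ⟨S, hS⟩ := Pool.Agent.H37.Etf.sig_of_symm_core (Pool.Agent.H37.Etf.core_of_conference (by norm_num) hC)
        (by rw [Fintype.card_fin]; exact h1)
      exact ⟨h1, _, inferInstance, inferInstance, S, hS, by
        rw [Fintype.card_sum, Fintype.card_fin]; ring⟩
    · exact ⟨Nat.mul_pos (by have := hp.1; omega) (by have := hq.1; omega),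
        ex_pair hp.ord hq.ord hp.1 hq.1⟩
  have h3 := key.2.double k
  rw [show 2 ^ k * (2 * n) = 2 * (2 ^ k * n) by ring] at h3
  exact exists_iff.2 (h3.etf (Nat.mul_pos (by positivity) key.1))

end Pool.Agent.Results.MP_0c7934_co.ConferencePairs
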