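import Pool.Agent.H26.SL.EtfT
import Pool.Agent.H89.MOD.Final

/-!
# Continuous families of pairwise inequivalent complex ETFs of `2M` vectors in `ℂ^M`

Let `n₁, …, n_l` (`l ≥ 1`) be blocks with `d₁, …, d_l` parameters. Here `n` is a block with `d`
parameters if `n` is an odd prime power and `d = (n - 1) / 2`, or if `n ≥ 3`, there is a
skew-symmetric conference matrix of order `n + 1` and `d = 1`, or if there is any complex
equiangular tight frame of `2n` vectors in `ℂ^n` and `d = 0`. Let `m ≥ 1` have `r` odd prime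
divisors, let `k ≥ 3 (l - 1) + 2 r` and `M = 2^k m n₁ ⋯ n_l`. Then there is a continuous family of
complex equiangular tight frames of `2M` vectors in `ℂ^M` with `d₁ + ⋯ + d_l` real parameters, no
two of them equivalent.
-/

namespace Pool.Agent.Results.MP_0c7934_co.ModuliFamilies

open Pool.Agent.H26.SL.Etf

theorem result (L : List (ℕ × ℕ)) (hne : L ≠ [])
    (hL : ∀ p ∈ L, (IsPrimePow p.1 ∧ Odd p.1 ∧ p.2 = (p.1 - 1) / 2) ∨
      (3 ≤ p.1 ∧ (∃ W : Fin (p.1 + 1) → Fin (p.1 + 1) → ℤ, IsConference (-1) W) ∧ p.2 = 1) ∨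
      (1 ≤ p.1 ∧ (∃ f : Fin (2 * p.1) → Fin p.1 → ℂ, IsETF f) ∧ p.2 = 0))
    (m k : ℕ) (hm : 1 ≤ m) (hk : 3 * (L.length - 1) + 2 * (m.primeFactors.erase 2).card ≤ k) :
    ∃ f : (Fin (L.map Prod.snd).sum → ℝ) → Fin (2 * (2 ^ k * m * (L.map Prod.fst).prod)) →
        Fin (2 ^ k * m * (L.map Prod.fst).prod) → ℂ,
      Continuous f ∧ (∀ s, IsETF (f s)) ∧ ∀ s t, Equivalent (f s) (f t) → s = t := by
  obtain ⟨f, h1, h2, h3⟩ := Pool.Agent.H89.MOD.block_main L hne (fun p hp => by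
    obtain ⟨n, d⟩ := p
    rcases hL _ hp with ⟨h1, h2, h3⟩ | ⟨h1, ⟨W, hW⟩, h3⟩ | ⟨h1, h2, h3⟩
    · simp only at h1 h2 h3
      rw [h3]
      exact Pool.Agent.H89.MOD.block_primePow h1 h2
    · simp only at h1 h3
      rw [h3]
      exact Pool.Agent.H89.MOD.block_skew h1 ((isConference_iff _ (by omega) W).1 hW)
    · simp only at h1 h3
      rw [h3]
      exact Pool.Agent.H89.MOD.block_etf h1 (exists_iff.1 h2)) m k hm hk
  exact family f h1 h2 h3

end Pool.Agent.Results.MP_0c7934_co.ModuliFamilies
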