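import Pool.Agent.H26.SL.EtfT
import Pool.Agent.H54.Etf.Main

/-!
# A product theorem for complex ETFs of `2M` vectors in `ℂ^M`

Suppose that there is a complex ETF of `2M` vectors in `ℂ^M`. If there is also a complex ETF of
`N ≥ 2` vectors in some `ℂ^d` with `16 (N - 2d)² ≤ 9 N`, or a symmetric conference matrix of order
`N + 1 ≥ 6`, then there is a complex ETF of `2M'` vectors in `ℂ^M'`, where `M' = 4 N M`.
In particular `M, M'` in the set of orders imply `8 M M'` in the set.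
-/

namespace Pool.Agent.Results.MP_0c7934_co.ProductTheorem

open Pool.Agent.H26.SL.Etf Pool.Agent.H54.Etf

theorem result (M N : ℕ) (hM : 1 ≤ M)
    (h : ∃ f : Fin (2 * M) → Fin M → ℂ, IsETF f)
    (h' : (2 ≤ N ∧ ∃ d : ℕ, 16 * ((N : ℤ) - 2 * d) ^ 2 ≤ 9 * N ∧
        ∃ f : Fin N → Fin d → ℂ, IsETF f) ∨
      (5 ≤ N ∧ ∃ W : Fin (N + 1) → Fin (N + 1) → ℤ, IsConference 1 W)) :
    ∃ f : Fin (2 * (4 * N * M)) → Fin (4 * N * M) → ℂ, IsETF f := by
  rw [exists_iff] at h ⊢
  have h1 : Ex (2 * M) := HasETF.ex hM h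
  rcases h' with ⟨hN, d, hd, hf⟩ | ⟨hN, W, hW⟩
  · exact (HasETF.prod hM hN h1 (exists_iff.1 hf) hd).etf (Nat.mul_pos (by omega) hM)
  · have hC := (isConference_iff 1 (by omega) W).1 hW
    have h2 : Ex (4 * N * (2 * M)) := by
      have := h1.symm (by omega) (Pool.Agent.H37.Etf.core_of_conference (by norm_num) hC)
        (by rw [Fintype.card_fin]; exact hN)
      rwa [Fintype.card_fin] at this
    rw [show 4 * N * (2 * M) = 2 * (4 * N * M) by ring] at h2
    exact h2.etf (Nat.mul_pos (by omega) hM)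

end Pool.Agent.Results.MP_0c7934_co.ProductTheorem
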