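import Pool.Agent.H26.SL.EtfT
import Pool.Agent.H89.U4.Final

/-!
# Complex ETFs of `2M` vectors in `ℂ^M` for all multiples `M` of a fixed power of `2`: moduli

There are `k₀` and `c > 0` such that for every `M ≥ 1` divisible by `2 ^ k₀` there is a continuous
family of complex equiangular tight frames of `2M` vectors in `ℂ^M` with at least `c M` real
parameters, no two of them equivalent.
-/

namespace Pool.Agent.Results.MP_0c7934_co.UniformModuli

open Pool.Agent.H26.SL.Etf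

theorem result : ∃ (k₀ : ℕ) (c : ℝ), 0 < c ∧ ∀ M : ℕ, 1 ≤ M → 2 ^ k₀ ∣ M →
    ∃ d : ℕ, c * M ≤ d ∧ ∃ f : (Fin d → ℝ) → Fin (2 * M) → Fin M → ℂ,
      Continuous f ∧ (∀ s, IsETF (f s)) ∧ ∀ s t, Equivalent (f s) (f t) → s = t := by
  obtain ⟨k₀, c, hc, h⟩ := Pool.Agent.H89.U4.moduli
  refine ⟨k₀, c, hc, fun M hM hk => ?_⟩
  obtain ⟨d, hd, f, h1, h2, h3⟩ := h M hM hk
  exact ⟨d, hd, family f h1 h2 h3⟩

end Pool.Agent.Results.MP_0c7934_co.UniformModuli
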